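import Pool.Agent.H17.RX.Stm

set_option autoImplicit false

namespace Pool.Agent.H89.RX

open Pool.Agent.H17.RX

theorem t_MON : S_MON := by
  intro ε N d hN hε
  refine ⟨?_, ?_⟩
  · intro m C C' hsub hb
    cases m with
    | zero => exact Finset.Nonempty.mono hsub hb
    | succ m =>
      intro w S c hw hin hS
      obtain ⟨C'', h1, h2, h3⟩ := hb w S c hw hin hS
      exact ⟨C'', h1.trans hsub, h2, h3⟩
  · intro m
    induction m with
    | zero =>
      intro C hb
      obtain ⟨C', h1, h2, h3⟩ := hb (fun _ => 0) 0 (fun _ => ⟨0, hN⟩) (by simp) (by simp) (by simp)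
      exact Finset.Nonempty.mono h1 h2
    | succ m ih =>
      intro C hb w S c hw hin hS
      obtain ⟨C', h1, h2, h3⟩ := hb w S c hw hin hS
      exact ⟨C', h1, ih C' h2, h3⟩

end Pool.Agent.H89.RX
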