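import Pool.Agent.H17.RX.Stm

set_option autoImplicit false
open Filter Topology MeasureTheory
open scoped ComplexConjugate ENNReal

namespace Pool.Agent.H89.RX

open Pool.Agent.H17.RX

lemma norm_chi (a : ZMod 4) : ‖chi a‖ = 1 := by
  simp [chi]

lemma norm_zz {d : ℕ} (hd : 1 ≤ d) (θ : Th d) : ‖zz θ‖ = 1 := by
  have h1 : ‖zz θ‖ ^ 2 = 1 := by
    rw [EuclideanSpace.norm_sq_eq]
    simp only [zz]
    have : ∀ j : Fin d, ‖((Real.sqrt d : ℝ) : ℂ)⁻¹ * chi (θ j)‖ ^ 2 = (d : ℝ)⁻¹ := by
      intro j
      rw [norm_mul, norm_chi, mul_one, norm_inv, Complex.norm_real, Real.norm_eq_abs,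
        abs_of_nonneg (Real.sqrt_nonneg _), inv_pow, Real.sq_sqrt (Nat.cast_nonneg d)]
    rw [Finset.sum_congr rfl (fun j _ => this j)]
    rw [Finset.sum_const, Finset.card_univ, Fintype.card_fin, nsmul_eq_mul]
    have : (d : ℝ) ≠ 0 := by positivity
    field_simp
  have h2 : (0 : ℝ) ≤ ‖zz θ‖ := norm_nonneg _
  nlinarith

lemma norm_zg {d : ℕ → ℕ} (hd : ∀ k, 1 ≤ d k) (i : Σ k, Th (d k)) : ‖zg d i‖ = 1 := by
  have : ‖zg d i‖ = ‖zz i.2‖ := by
    simp only [zg]
    exact lp.norm_single (E := fun k => F (d k)) (p := 2) (by norm_num) i.1 (zz i.2)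
  rw [this, norm_zz (hd i.1)]

section V

variable {d : ℕ → ℕ} (V : HH d ≃+ L2) (hV : ∀ x, ‖V x‖ = ‖x‖)
  (hs : ∀ (r : ℝ) (x : HH d), V (((r : ℂ)) • x) = r • V x)

include hV in
lemma inner_V (x x' : HH d) : inner ℝ (V x) (V x') = (inner ℂ x x' : ℂ).re := by
  have h1 := real_inner_eq_norm_add_mul_self_sub_norm_mul_self_sub_norm_mul_self_div_two (V x) (V x')
  have h2 := re_inner_eq_norm_add_mul_self_sub_norm_mul_self_sub_norm_mul_self_div_two (𝕜 := ℂ) x x'
  rw [← map_add, hV, hV, hV] at h1
  rw [h1]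
  rw [← h2]
  rfl

include hs in
lemma symm_smul (r : ℝ) (w : L2) : V.symm (r • w) = (r : ℂ) • V.symm w := by
  apply V.injective
  rw [hs]
  simp

include hV in
lemma norm_symm (w : L2) : ‖V.symm w‖ = ‖w‖ := by
  rw [← hV]; simp

include hV hs in
lemma mkR (G : HH d → HH d) (ha : ∀ x x', G (x + x') = G x + G x')
    (hr : ∀ (r : ℝ) x, G ((r : ℂ) • x) = (r : ℂ) • G x) (C : ℝ) (hC : ∀ x, ‖G x‖ ≤ C * ‖x‖) :
    ∃ T : L2 →L[ℝ] L2, ∀ w, T w = V (G (V.symm w)) := by
  refine ⟨LinearMap.mkContinuous
    { toFun := fun w => V (G (V.symm w))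
      map_add' := ?_
      map_smul' := ?_ } C ?_, fun w => rfl⟩
  · intro a b
    rw [map_add, ha, map_add]
  · intro r a
    rw [symm_smul V hs, hr, hs]
    rfl
  · intro w
    show ‖V (G (V.symm w))‖ ≤ _
    rw [hV]
    refine (hC _).trans_eq ?_
    rw [norm_symm V hV]

end V

theorem t_THR (hTHA : S_THA) (hBIG : S_BIG) (hISO : S_ISO) : S_THR := by
  intro hCH
  have hd : ∀ k : ℕ, ∃ d : ℕ, 1 ≤ d ∧ Big (1 / ((k : ℝ) + 1)) (Nc k) d k
      (Finset.univ : Finset (Th d)) := by
    intro k
    exact hBIG k (Nc k) (1 / ((k : ℝ) + 1)) (Nat.one_le_iff_ne_zero.2 (by simp [Nc]))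
      (by positivity)
  choose d hd1 hd2 using hd
  have hD : IsD d := fun k => ⟨hd1 k, hd2 k⟩
  obtain ⟨U₀, hU₀, hA, hB⟩ := hTHA hCH d hD
  obtain ⟨V, hV, hs⟩ := hISO d hd1
  have : Infinite (Σ k, Th (d k)) := by
    apply Infinite.of_injective (fun k : ℕ => (⟨k, fun _ => 0⟩ : Σ k, Th (d k)))
    intro a b hab
    simpa using congrArg Sigma.fst hab
  obtain ⟨e⟩ : Nonempty ((Σ k, Th (d k)) ≃ ℕ) := nonempty_equiv_of_countable
  have hIsq : ∀ x : HH d, Complex.I • (Complex.I • x) = -x := by
    intro x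
    rw [smul_smul, Complex.I_mul_I, neg_smul, one_smul]
  obtain ⟨J, hJ⟩ := mkR V hV hs (fun x => Complex.I • x) (fun x x' => smul_add _ _ _)
    (fun r x => smul_comm _ _ _) 1 (fun x => by rw [norm_smul, Complex.norm_I])
  refine ⟨U₀.map e, fun n => V (zg d (e.symm n)), fun n => V (Complex.I • zg d (e.symm n)), J,
    ?_, ?_⟩
  · rw [Ultrafilter.coe_map]
    have := e.injective.tendsto_cofinite
    exact (Filter.map_mono hU₀).trans this
  · constructor
    · intro i
      rw [hV, norm_zg hd1]
    · intro i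
      rw [hV, norm_smul, Complex.norm_I, one_mul, norm_zg hd1]
    · intro i
      rw [inner_V V hV, inner_smul_right, inner_self_eq_norm_sq_to_K, norm_zg hd1]
      simp
    · intro i
      rw [hJ]
      simp
    · intro i
      rw [hJ]
      simp only [AddEquiv.symm_apply_apply]
      rw [hIsq, map_neg]
    · intro T
      -- T' and its antilinear part
      set T' : HH d → HH d := fun x => V.symm (T (V x)) with hT'
      have hT'a : ∀ x x', T' (x + x') = T' x + T' x' := by
        intro x x'; simp only [hT', map_add]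
      have hT'r : ∀ (r : ℝ) x, T' ((r : ℂ) • x) = (r : ℂ) • T' x := by
        intro r x
        simp only [hT']
        rw [hs, map_smul, symm_smul V hs]
      have hT'n : ∀ x, T' (-x) = - T' x := by
        intro x; simp only [hT', map_neg]
      have hT'b : ∀ x, ‖T' x‖ ≤ ‖T‖ * ‖x‖ := by
        intro x
        simp only [hT']
        rw [norm_symm V hV]
        refine (T.le_opNorm _).trans_eq ?_
        rw [hV]
      set S0 : HH d → HH d := fun x => ((1 / 2 : ℝ) : ℂ) • (T' x + Complex.I • T' (Complex.I • x))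
        with hS0
      have hS0a : ∀ x x', S0 (x + x') = S0 x + S0 x' := by
        intro x x'
        simp only [hS0, smul_add, hT'a]
        abel
      have hS0r : ∀ (r : ℝ) x, S0 ((r : ℂ) • x) = (r : ℂ) • S0 x := by
        intro r x
        simp only [hS0]
        rw [smul_comm Complex.I (r : ℂ) x, hT'r, hT'r, smul_comm Complex.I (r : ℂ), ← smul_add,
          smul_comm]
      have hS0i : ∀ x, S0 (Complex.I • x) = (-Complex.I) • S0 x := by
        intro x
        simp only [hS0]
        rw [hIsq, hT'n, smul_comm (-Complex.I) ((1 / 2 : ℝ) : ℂ), smul_add (-Complex.I), neg_smul,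
          neg_smul, hIsq, smul_neg, neg_neg, add_comm]
      have hS0c : ∀ (c : ℂ) x, S0 (c • x) = (starRingEnd ℂ) c • S0 x := by
        intro c x
        have h1 : c • x = ((c.re : ℝ) : ℂ) • x + ((c.im : ℝ) : ℂ) • (Complex.I • x) := by
          rw [smul_smul, ← add_smul, Complex.re_add_im]
        rw [h1, hS0a, hS0r, hS0r, hS0i, smul_smul ((c.im : ℝ) : ℂ) (-Complex.I) (S0 x),
          ← add_smul]
        congr 1
        apply Complex.ext <;> simp
      let S : HH d →L⋆[ℂ] HH d := LinearMap.mkContinuous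
        { toFun := S0
          map_add' := hS0a
          map_smul' := hS0c } ‖T‖ (by
            intro x
            show ‖S0 x‖ ≤ _
            simp only [hS0]
            rw [norm_smul]
            have h1 : ‖T' x + Complex.I • T' (Complex.I • x)‖ ≤ ‖T‖ * ‖x‖ + ‖T‖ * ‖x‖ := by
              refine (norm_add_le _ _).trans (add_le_add (hT'b x) ?_)
              rw [norm_smul, Complex.norm_I, one_mul]
              refine (hT'b _).trans_eq ?_
              rw [norm_smul, Complex.norm_I, one_mul]
            rw [Complex.norm_real, Real.norm_eq_abs, abs_of_pos (by norm_num : (0:ℝ) < 1 / 2)]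
            linarith)
      have hSz := hA S
      have key : ∀ i : (Σ k, Th (d k)), inner ℝ (V (zg d i)) (T (V (zg d i))) -
          inner ℝ (V (Complex.I • zg d i)) (T (V (Complex.I • zg d i))) =
          2 * (inner ℂ (zg d i) (S (zg d i)) : ℂ).re := by
        intro i
        have e1 : T (V (zg d i)) = V (T' (zg d i)) := by simp [hT']
        have e2 : T (V (Complex.I • zg d i)) = V (T' (Complex.I • zg d i)) := by simp [hT']
        rw [e1, e2, inner_V V hV, inner_V V hV]
        have e3 : S (zg d i) = ((1 / 2 : ℝ) : ℂ) • (T' (zg d i) +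
          Complex.I • T' (Complex.I • zg d i)) := rfl
        rw [e3, inner_smul_right, inner_add_right, inner_smul_right, inner_smul_left]
        simp
        ring
      rw [Ultrafilter.coe_map]
      rw [Filter.tendsto_map'_iff]
      have h3 : Tendsto (fun i => 2 * (inner ℂ (zg d i) (S (zg d i)) : ℂ).re) U₀ (𝓝 0) := by
        have := (Complex.continuous_re.tendsto 0).comp hSz
        have h4 := this.const_mul 2
        simpa using h4
      refine h3.congr (fun i => ?_)
      simp only [Function.comp]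
      rw [← key i]
      simp
    · intro v hv ε hε
      obtain ⟨T₀, hT₀⟩ := hB (fun i => V.symm (v (e i))) (fun i => by
        rw [norm_symm V hV]; exact hv _) ε hε
      obtain ⟨T, hT⟩ := mkR V hV hs (fun x => T₀ x) (fun x x' => map_add _ _ _)
        (fun r x => map_smul _ _ _) ‖T₀‖ (fun x => T₀.le_opNorm x)
      refine ⟨T, ?_⟩
      rw [Ultrafilter.coe_map, Filter.eventually_map]
      filter_upwards [hT₀] with i hi
      have e1 : v (e i) = V (V.symm (v (e i))) := by simp
      set x := V.symm (v (e i)) with hx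
      have e2 : inner ℝ (V (zg d i)) (v (e i)) = (inner ℂ (zg d i) x : ℂ).re := by
        rw [e1, inner_V V hV]
      have e3 : inner ℝ (V (Complex.I • zg d i)) (v (e i)) = (inner ℂ (zg d i) x : ℂ).im := by
        rw [e1, inner_V V hV, inner_smul_left]
        simp
      simp only [Equiv.symm_apply_apply]
      rw [e2, e3, hT, ← hx]
      have e4 : V (T₀ x) - ((inner ℂ (zg d i) x : ℂ).re • V (zg d i) +
          (inner ℂ (zg d i) x : ℂ).im • V (Complex.I • zg d i)) =
          V (T₀ x - inner ℂ (zg d i) x • zg d i) := by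
        rw [map_sub, ← hs, ← hs, ← map_add, smul_smul, ← add_smul, Complex.re_add_im]
      rw [e4, hV]
      exact hi

end Pool.Agent.H89.RX
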